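import Pool.Agent.helper81.CI.Spec

/-!
# Project ci (MP_447e26_gt): module PRI
-/

set_option autoImplicit false

open MeasureTheory Set Filter Topology
open scoped ENNReal
open Pool.Agent.helper81.CW Pool.Agent.CL

noncomputable section

namespace Pool.Agent.CI

theorem PRI_cont (hFAR : FAR_stmt) {n : ℕ} (C : Set (E n)) (hC : IsCompact C)
    (hne : C.Nonempty) : Continuous (far C) := by
  have h : LipschitzWith 1 (far C) := by
    refine LipschitzWith.of_dist_le_mul fun x y => ?_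
    rw [Real.dist_eq, dist_eq_norm, NNReal.coe_one, one_mul]
    exact (hFAR n C hC hne x y).2.2.1
  exact h.continuous

theorem PRI_p1 (d e : ℕ) (z x : E (d + e)) :
    p1 d e ((2 : ℝ) • z - x) = (2 : ℝ) • p1 d e z - p1 d e x := by
  ext i
  simp [p1]

theorem PRI_p2 (d e : ℕ) (z x : E (d + e)) :
    p2 d e ((2 : ℝ) • z - x) = (2 : ℝ) • p2 d e z - p2 d e x := by
  ext i
  simp [p2]

theorem PRI_mem (d e : ℕ) (α β : ℝ) (hα : 0 < √α) (hβ : 0 < √β) (C₁ : Set (E d)) (C₂ : Set (E e))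
    (x : E (d + e)) : x ∈ KK d e α β C₁ C₂ ↔
      (√α)⁻¹ • p1 d e x ∈ C₁ ∧ (√β)⁻¹ • p2 d e x ∈ C₂ := by
  constructor
  · rintro ⟨u, hu, v, hv, h1, h2⟩
    rw [h1, h2, smul_smul, smul_smul, inv_mul_cancel₀ hα.ne', inv_mul_cancel₀ hβ.ne', one_smul,
      one_smul]
    exact ⟨hu, hv⟩
  · rintro ⟨h1, h2⟩
    refine ⟨_, h1, _, h2, ?_, ?_⟩
    · rw [smul_smul, mul_inv_cancel₀ hα.ne', one_smul]
    · rw [smul_smul, mul_inv_cancel₀ hβ.ne', one_smul]

/-- PRI -/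
theorem PRI (hFAR : FAR_stmt) (hMAE : MAE_stmt) (hPIN : PIN_stmt) (hSCA : SCA_stmt)
    (hKFA : KFA_stmt) (hJ2 : J2_stmt) : PRI_stmt := by
  intro d e C₁ C₂ α β h₁ h₂ hα hβ hαβ
  obtain ⟨hKc, hKne, hKd, hKf⟩ := hKFA d e C₁ C₂ α β h₁.2.1 h₁.1 h₂.2.1 h₂.1
    (hJ2 d C₁ 1 h₁).1 (hJ2 e C₂ 1 h₂).1 hα hβ hαβ
  obtain ⟨C, hC, hKC, _⟩ := hMAE (d + e) (KK d e α β C₁ C₂) hKc hKne hKd
  have hsα : 0 < √α := Real.sqrt_pos.2 hα
  have hsβ : 0 < √β := Real.sqrt_pos.2 hβ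
  have hs1 : Measurable (fun u : E d => (√α)⁻¹ • u) := (measurable_const_smul _)
  have hs2 : Measurable (fun u : E e => (√β)⁻¹ • u) := (measurable_const_smul _)
  have hcf1 := PRI_cont hFAR C₁ h₁.2.1 h₁.1
  have hcf2 := PRI_cont hFAR C₂ h₂.2.1 h₂.1
  refine ⟨C, hC, ?_, fun T hT => ?_⟩
  · -- the volume
    have hm1 : Measurable (C₁.indicator (fun _ => (1 : ℝ≥0∞))) :=
      measurable_const.indicator h₁.2.1.measurableSet
    have hm2 : Measurable (C₂.indicator (fun _ => (1 : ℝ≥0∞))) :=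
      measurable_const.indicator h₂.2.1.measurableSet
    have e0 := hPIN d e (fun u => C₁.indicator (fun _ => (1 : ℝ≥0∞)) ((√α)⁻¹ • u))
      (fun v => C₂.indicator (fun _ => (1 : ℝ≥0∞)) ((√β)⁻¹ • v)) (hm1.comp hs1) (hm2.comp hs2)
    have e1 := hSCA d (C₁.indicator (fun _ => (1 : ℝ≥0∞))) (√α) hm1 hsα
    have e2 := hSCA e (C₂.indicator (fun _ => (1 : ℝ≥0∞))) (√β) hm2 hsβ
    have e3 : ∫⁻ x : E d, C₁.indicator (fun _ => (1 : ℝ≥0∞)) x = volume C₁ := by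
      rw [lintegral_indicator_const h₁.2.1.measurableSet, one_mul]
    have e4 : ∫⁻ x : E e, C₂.indicator (fun _ => (1 : ℝ≥0∞)) x = volume C₂ := by
      rw [lintegral_indicator_const h₂.2.1.measurableSet, one_mul]
    rw [e1, e2, e3, e4] at e0
    have e5 : ∫⁻ x : E (d + e), C₁.indicator (fun _ => (1 : ℝ≥0∞)) ((√α)⁻¹ • p1 d e x) *
        C₂.indicator (fun _ => (1 : ℝ≥0∞)) ((√β)⁻¹ • p2 d e x) = volume (KK d e α β C₁ C₂) := by
      rw [← one_mul (volume (KK d e α β C₁ C₂)), ← lintegral_indicator_const hKc.measurableSet]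
      refine lintegral_congr fun x => ?_
      by_cases hx : x ∈ KK d e α β C₁ C₂
      · obtain ⟨h3, h4⟩ := (PRI_mem d e α β hsα hsβ C₁ C₂ x).1 hx
        rw [indicator_of_mem h3, indicator_of_mem h4, indicator_of_mem hx, one_mul]
      · rw [indicator_of_notMem hx]
        by_cases h3 : (√α)⁻¹ • p1 d e x ∈ C₁
        · have h4 : (√β)⁻¹ • p2 d e x ∉ C₂ :=
            fun h4 => hx ((PRI_mem d e α β hsα hsβ C₁ C₂ x).2 ⟨h3, h4⟩)
          rw [indicator_of_notMem h4, mul_zero]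
        · rw [indicator_of_notMem h3, zero_mul]
    have e6 : volume (KK d e α β C₁ C₂) = ENNReal.ofReal (√α ^ d) * volume C₁ *
        (ENNReal.ofReal (√β ^ e) * volume C₂) := by
      rw [← e5]
      exact e0
    refine le_trans (le_of_eq ?_) (measure_mono hKC)
    rw [e6, ENNReal.ofReal_mul (pow_nonneg hsα.le _)]
    ring
  · -- the integral
    refine iSup_le fun z => ?_
    set z₁ := (√α)⁻¹ • p1 d e z with hz₁
    set z₂ := (√β)⁻¹ • p2 d e z with hz₂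
    have hc1 : Measurable (fun u : E d => ENNReal.ofReal (Real.exp (T * α *
        (1 - (far C₁ u ^ 2 + far C₁ ((2 : ℝ) • z₁ - u) ^ 2) / 2)))) := by
      refine ENNReal.measurable_ofReal.comp ?_
      refine Continuous.measurable ?_
      fun_prop
    have hc2 : Measurable (fun u : E e => ENNReal.ofReal (Real.exp (T * β *
        (1 - (far C₂ u ^ 2 + far C₂ ((2 : ℝ) • z₂ - u) ^ 2) / 2)))) := by
      refine ENNReal.measurable_ofReal.comp ?_
      refine Continuous.measurable ?_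
      fun_prop
    have hsq : ∀ x : E (d + e), far (KK d e α β C₁ C₂) x ^ 2 ≤ far C x ^ 2 := by
      intro x
      obtain ⟨k, hk, hkf⟩ := (hFAR (d + e) (KK d e α β C₁ C₂) hKc hKne x x).2.1
      have h0 : 0 ≤ far (KK d e α β C₁ C₂) x := by
        rw [← hkf]
        exact norm_nonneg _
      have h1 : far (KK d e α β C₁ C₂) x ≤ far C x := by
        rw [← hkf]
        exact (hFAR (d + e) C hC.2.1 hC.1 x x).1 k (hKC hk)
      exact pow_le_pow_left₀ h0 h1 2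
    have hle : IZ C z T ≤ ∫⁻ x : E (d + e),
        (fun u : E d => ENNReal.ofReal (Real.exp (T * α * (1 - (far C₁ ((√α)⁻¹ • u) ^ 2 +
          far C₁ ((2 : ℝ) • z₁ - (√α)⁻¹ • u) ^ 2) / 2)))) (p1 d e x) *
        (fun v : E e => ENNReal.ofReal (Real.exp (T * β * (1 - (far C₂ ((√β)⁻¹ • v) ^ 2 +
          far C₂ ((2 : ℝ) • z₂ - (√β)⁻¹ • v) ^ 2) / 2)))) (p2 d e x) := by
      unfold IZ
      refine lintegral_mono fun x => ?_
      simp only
      rw [← ENNReal.ofReal_mul (Real.exp_nonneg _), ← Real.exp_add]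
      refine ENNReal.ofReal_le_ofReal (Real.exp_le_exp.2 ?_)
      have hf := hKf x
      have hf' := hKf ((2 : ℝ) • z - x)
      rw [PRI_p1, PRI_p2] at hf'
      have g1 : (√α)⁻¹ • ((2 : ℝ) • p1 d e z - p1 d e x) =
          (2 : ℝ) • z₁ - (√α)⁻¹ • p1 d e x := by
        rw [hz₁, smul_sub, smul_comm]
      have g2 : (√β)⁻¹ • ((2 : ℝ) • p2 d e z - p2 d e x) =
          (2 : ℝ) • z₂ - (√β)⁻¹ • p2 d e x := by
        rw [hz₂, smul_sub, smul_comm]
      rw [g1, g2] at hf'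
      have h2 := hsq x
      have h2' := hsq ((2 : ℝ) • z - x)
      have h3 : T * (1 - (far C x ^ 2 + far C ((2 : ℝ) • z - x) ^ 2) / 2) ≤
          T * (1 - (far (KK d e α β C₁ C₂) x ^ 2 +
            far (KK d e α β C₁ C₂) ((2 : ℝ) • z - x) ^ 2) / 2) :=
        mul_le_mul_of_nonneg_left (by linarith) hT
      refine h3.trans (le_of_eq ?_)
      rw [hf, hf']
      have h4 : β = 1 - α := by linarith
      rw [h4]
      ring
    refine hle.trans ?_
    refine (hPIN d e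
      (fun u : E d => ENNReal.ofReal (Real.exp (T * α * (1 - (far C₁ ((√α)⁻¹ • u) ^ 2 +
          far C₁ ((2 : ℝ) • z₁ - (√α)⁻¹ • u) ^ 2) / 2))))
      (fun v : E e => ENNReal.ofReal (Real.exp (T * β * (1 - (far C₂ ((√β)⁻¹ • v) ^ 2 +
          far C₂ ((2 : ℝ) • z₂ - (√β)⁻¹ • v) ^ 2) / 2))))
      (hc1.comp hs1) (hc2.comp hs2)).le.trans ?_
    have e1 := hSCA d (fun u : E d => ENNReal.ofReal (Real.exp (T * α *
        (1 - (far C₁ u ^ 2 + far C₁ ((2 : ℝ) • z₁ - u) ^ 2) / 2)))) (√α) hc1 hsα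
    have e2 := hSCA e (fun u : E e => ENNReal.ofReal (Real.exp (T * β *
        (1 - (far C₂ u ^ 2 + far C₂ ((2 : ℝ) • z₂ - u) ^ 2) / 2)))) (√β) hc2 hsβ
    rw [e1, e2]
    have i1 : IZ C₁ z₁ (T * α) ≤ SZ C₁ (T * α) := le_iSup (fun z => IZ C₁ z (T * α)) z₁
    have i2 : IZ C₂ z₂ (T * β) ≤ SZ C₂ (T * β) := le_iSup (fun z => IZ C₂ z (T * β)) z₂
    unfold IZ at i1 i2
    rw [ENNReal.ofReal_mul (pow_nonneg hsα.le _)]
    calc _ ≤ ENNReal.ofReal (√α ^ d) * SZ C₁ (T * α) *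
          (ENNReal.ofReal (√β ^ e) * SZ C₂ (T * β)) := by gcongr
      _ = _ := by ring

end Pool.Agent.CI
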